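import Pool.Agent.H51BS.Beilinson

/-!
# Beilinson's conjecture in degrees at most zero and rational function fields
-/

set_option autoImplicit false

namespace Pool.Agent.Results.MP_a09a03_nt.DegreesAtMostZero

open Pool.Agent.H51BS.Integral

/-- (A) For arithmetic surfaces the following are equivalent:

1. for all `X` as in the question with `d = dim X ≤ 2` and all `i ≥ 1` with `2d - 1 - i ≤ 0` the map
   `ρⁱ` is bijective;
2. `Hʲ(E, ℚ(2)) = 0` for all `j ≤ 0` and all fields `E` of transcendence degree at most one over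
   `ℚ`;
3. `Hʲ(ℚ(t₁, t₂), ℚ(3))` is finite dimensional for all `j ≤ 1`.

(B) For every `D` consider

1. for all `X` as in the question with `d = dim X ≤ D` and all `i ≥ 1` with `2d - 1 - i ≤ 0` the map
   `ρⁱ` is bijective;
2. `Hʲ(E, ℚ(s)) = 0` for all `j ≤ 0`, `1 ≤ s ≤ D` and all fields `E` of transcendence degree at most
   `s - 1` over `ℚ`;
3. `Hʲ(ℚ(t₁, …, t_s), ℚ(s+1))` is finite dimensional for all `j ≤ 1` and `1 ≤ s ≤ D`.

Then 2 and 3 are equivalent, they imply 1, and all three are equivalent if `CharPart M D` holds. -/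
theorem result (M : BeilinsonTheory) :
    [QuestionLow M 2, CurvesZero M, PlaneFinite M].TFAE ∧
    ∀ D : ℕ, (FieldsQ M D ↔ RationalQ M D) ∧ (RationalQ M D → QuestionLow M D) ∧
      (CharPart M D → (QuestionLow M D ↔ RationalQ M D)) :=
  ⟨main_surfaces M, fun D => ⟨fieldsQ_iff, main_all M D⟩⟩

end Pool.Agent.Results.MP_a09a03_nt.DegreesAtMostZero
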