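import Pool.Agent.Q27.BG2.Flat
import Pool.Agent.Q54.BZ.Five
import Pool.Agent.Q54.CU.Trip

/-!
# Beilinson's regulator conjecture in each dimension and tensors

For a finite set `H` of triples `(i, j, k)` let `E_H` be the hypersurface
`∑_{(i, j, k) ∈ H} x_i y_j z_k = 1` over `ℤ`. For an arithmetic scheme `X` consider the pairings between
the motivic Borel-Moore homology `CH_j(X, i - 2 j) ⊗ ℝ` and the Arakelov motivic cohomology with compact
supports. We show that they are perfect for all arithmetic schemes with fibres of dimension at most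
`d` over `ℤ`, singular ones included, if and only if they are perfect for the schemes `E_H` with `d + 2`
variables `z`, and that this implies the conjecture of Beilinson for all regular connected schemes of
dimension at most `d + 1` which are proper and flat over `ℤ`.
-/

set_option autoImplicit false

namespace Pool.Agent.Results.MP_a09a03_nt.DimensionByDimension

open CategoryTheory AlgebraicGeometry NumberField
open Pool.Agent.Y116.UV Q54.CU Q54.ZE Q54.BZ Pool.Agent.Q27.BG Pool.Agent.Q27.BG2

section

variable (P : Sch ℤ → Prop)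

/-- `P` is true for all regular separated schemes of finite type over `ℤ` whose fibres have dimension
at most `d`. -/
def RegFib (d : ℕ) : Prop :=
  ∀ X : Sch ℤ, FT True X → IsRegularSch X.left → FibLE d (X := X.left) X.hom → P X

/-- `P` is true for all separated schemes of finite type over `ℤ` whose fibres have dimension at most
`d`. -/
def AllFib (d : ℕ) : Prop :=
  ∀ X : Sch ℤ, FT True X → FibLE d (X := X.left) X.hom → P X

/-- `P` is true for all separated schemes of finite type over `ℤ` of dimension at most `D`. -/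
def AllDim (D : ℕ) : Prop :=
  ∀ X : Sch ℤ, FT True X → topologicalKrullDim X.left ≤ D → P X

/-- `P` is true for the hypersurfaces `∑_{(i, j, k) ∈ H} x_i y_j z_k = 1` over `ℤ`, where `H` is any
set of triples with `k < c`. -/
def GraphZ (c : ℕ) : Prop := ∀ (a b : ℕ) (H : Finset (Fin a × Fin b × Fin c)), P (tripS ℤ H)

/-- `P` is true for the hypersurfaces `T(x, y, z) = 1` over `ℤ`, where `T` is any trilinear form over
`ℤ` with at most `c` variables in one of the three blocks. -/
def BlockZ (c : ℕ) : Prop :=
  ∀ (l m n : ℕ) (T : Fin l → Fin m → Fin n → ℤ), l ≤ c ∨ m ≤ c ∨ n ≤ c → P (hypS T)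

/-- `P` is true for the hypersurfaces `T(x, y, z) = 1`, where `T` is any trilinear form over a finite
field with at most `c` variables in one of the three blocks. -/
def BlockF (c : ℕ) : Prop :=
  ∀ (k : Type) [Field k] [Finite k] (l m n : ℕ) (T : Fin l → Fin m → Fin n → k),
    l ≤ c ∨ m ≤ c ∨ n ≤ c → P (aff ℤ (Hyp T))

/-- `P` is true for the rings of integers of number fields, for the finite fields and for the smooth
algebras over `𝔽_p` of dimension at most one. -/
def Known : Prop :=
  (∀ (K : Type) [Field K] [NumberField K], P (aff ℤ (𝓞 K))) ∧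
    (∀ (k : Type) [Field k] [Finite k], P (aff ℤ k)) ∧
      ∀ (p : ℕ) [Fact p.Prime] (A : Type) [CommRing A] [Algebra (ZMod p) A]
        [Algebra.Smooth (ZMod p) A], ringKrullDim A ≤ 1 → P (aff ℤ A)

end

/-- The groups in the conjecture of Beilinson for a regular connected scheme `X` of dimension `d`,
proper and flat over `ℤ`, with generic fibre `X_ℚ`:

* `M i` is the real span of the integral part `H^{2 d - 1 - i}_M(X_{/ℤ}, ℚ(d))`;
* `E i` is the Deligne cohomology `H^{2 d - 1 - i}_𝒟(X_{/ℝ}, ℝ(d))`;
* `C` is the space `CH^0(X_ℚ)^* ⊗ ℝ`;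
* `rho i` is the regulator and `eps` is the map to `C`;
* `res i` is the restriction from `H^{2 d - 1 - i}(X, ℚ(d)) ⊗ ℝ = CH_0(X, i + 1) ⊗ ℝ`, whose image is
  the integral part;
* `comp i` is the dual of the boundary map from Deligne cohomology to Arakelov motivic
  cohomology. Since `H^i(X, ℚ(0))` is zero for `i ≠ 0` it is bijective for `i ≥ 1`, and for `i = 0`
  its image is the kernel of `eps`. -/
structure Regulators (D : ℤ → ℤ → Sch ℤ → RegSp) (X : Sch ℤ) where
  M : ℕ → Type
  E : ℕ → Type
  C : Type
  [groupM : ∀ i, AddCommGroup (M i)]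
  [modM : ∀ i, Module ℝ (M i)]
  [groupE : ∀ i, AddCommGroup (E i)]
  [modE : ∀ i, Module ℝ (E i)]
  [groupC : AddCommGroup C]
  [modC : Module ℝ C]
  rho : ∀ i, M i →ₗ[ℝ] E i
  eps : E 0 →ₗ[ℝ] C
  res : ∀ i : ℕ, (D (i + 1) 0 X).A →ₗ[ℝ] M i
  comp : ∀ i : ℕ, (D (i + 1) 0 X).H →ₗ[ℝ] E i
  res_surj : ∀ i, Function.Surjective (res i)
  comm : ∀ i x, rho i (res i x) = comp i ((D (i + 1) 0 X).reg x)
  comp_bij : ∀ i, 1 ≤ i → Function.Bijective (comp i)
  comp_inj : Function.Injective (comp 0)
  comp_exact : Function.Exact (comp 0) eps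
  eps_surj : Function.Surjective eps

attribute [instance] Regulators.groupM Regulators.modM Regulators.groupE Regulators.modE
  Regulators.groupC Regulators.modC

/-- The conjecture of Beilinson: the regulator is bijective for `i ≥ 1`, and for `i = 0` there is
the exact sequence `0 → M 0 → E 0 → C → 0`. -/
structure Beilinson {D : ℤ → ℤ → Sch ℤ → RegSp} {X : Sch ℤ} (R : Regulators D X) : Prop where
  bijective : ∀ i, 1 ≤ i → Function.Bijective (R.rho i)
  injective : Function.Injective (R.rho 0)
  exact : Function.Exact (R.rho 0) R.eps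
  surjective : Function.Surjective R.eps

/-- The restrictions of the motivic cohomology of the model to the generic fibre are injective (the
conjecture of Flach). -/
def FlachInjective {D : ℤ → ℤ → Sch ℤ → RegSp} {X : Sch ℤ} (R : Regulators D X) : Prop :=
  ∀ i, Function.Injective (R.res i)

/-- **The conjecture of Beilinson in each dimension and tensors.** -/
theorem result (D : ℤ → ℤ → Sch ℤ → RegSp) (hD : IsBeilinsonTheory D)
    (point : Perfect D (aff ℤ ℤ)) :
    (∀ d : ℕ, List.TFAE
      [RegFib (Perfect D) d, AllFib (Perfect D) d, GraphZ (Perfect D) (d + 2),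
        BlockZ (Perfect D) (d + 2)]) ∧
    (∀ d : ℕ, GraphZ (Perfect D) (d + 2) → ∀ X : Sch ℤ, FT True X → IsIntegral X.left →
      Flat X.hom → topologicalKrullDim X.left ≤ (d + 1 : ℕ) → ∀ R : Regulators D X,
        Beilinson R ∧ FlachInjective R) ∧
    (Known (Perfect D) → AllDim (Perfect D) 1 ∧ BlockZ (Perfect D) 2 ∧ BlockF (Perfect D) 3) ∧
    ∀ (l m n : ℕ) (T : Fin l → Fin m → Fin n → ℤ), FT True (hypS T) ∧
      IsRegularSch (hypS T).left ∧ Smooth (hypS T).hom := by
  have hP := bnd_perfect hD point
  refine ⟨fun d => fib_main_sep hP d, ?_, fun ⟨hO, hF, hC⟩ => ?_,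
    fun _ _ _ T => ⟨ft_aff True, reg_hypS T, ?_⟩⟩
  · intro d h X hX hI hflat hd R
    have hP : Perfect D X := flat_main hP h X hX hd
    have h1 : ∀ i : ℕ, Function.Bijective (D (i + 1) 0 X).reg := fun i => hP (i + 1) 0
    have h2 : ∀ i, (R.rho i : R.M i → R.E i) ∘ R.res i = R.comp i ∘ (D (i + 1) 0 X).reg :=
      fun i => funext (R.comm i)
    have h3 : ∀ i, Function.Injective (R.comp i) := by
      intro i
      rcases Nat.eq_zero_or_pos i with rfl | hi
      · exact R.comp_inj
      · exact (R.comp_bij i hi).injective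
    have h4 : ∀ i, Function.Injective (R.rho i ∘ R.res i) := by
      intro i
      rw [h2 i]
      exact (h3 i).comp (h1 i).injective
    have h5 : ∀ i, Function.Injective (R.res i) := fun i => (h4 i).of_comp
    have h6 : ∀ i, Function.Injective (R.rho i) := by
      intro i x y hxy
      obtain ⟨x, rfl⟩ := R.res_surj i x
      obtain ⟨y, rfl⟩ := R.res_surj i y
      rw [h4 i hxy]
    refine ⟨⟨?_, h6 0, ?_, R.eps_surj⟩, h5⟩
    · intro i hi
      refine ⟨h6 i, fun y => ?_⟩
      obtain ⟨z, rfl⟩ := (R.comp_bij i hi).surjective y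
      obtain ⟨x, rfl⟩ := (h1 i).surjective z
      exact ⟨R.res i x, R.comm i x⟩
    · intro y
      rw [R.comp_exact y]
      constructor
      · rintro ⟨z, rfl⟩
        obtain ⟨x, rfl⟩ := (h1 0).surjective z
        exact ⟨R.res 0 x, R.comm 0 x⟩
      · rintro ⟨x, rfl⟩
        obtain ⟨x, rfl⟩ := R.res_surj 0 x
        exact ⟨_, (R.comm 0 x).symm⟩
  · have h := dim_of_affine_sep hP (D := 1) fun A _ _ _ hA => dim_one_sep hP hO hF hC A hA
    have h2 := ((dim_main_sep hP 1).out 1 3).1 h
    exact ⟨h, h2.1, h2.2⟩
  · change Smooth (Spec.map (CommRingCat.ofHom (algebraMap ℤ (Hyp T))))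
    rw [HasRingHomProperty.Spec_iff (P := @Smooth)]
    exact RingHom.smooth_algebraMap.2 (hyp_smooth T)

end Pool.Agent.Results.MP_a09a03_nt.DimensionByDimension
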