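import Pool.Agent.Q212.DC.Mai
set_option autoImplicit false

/-!
Integral classes in `K_3` of products of two different curves `C_F : z + 1/z = F(x)` and
`C_G : w + 1/w = G(y)` over number fields: every factor `R` of `F(X) - G(Y)` gives a symbol
`{R(x, y), z, w}` that is unramified at all discrete valuations of the function field, and the
symbols of the factors of `F(X) - G(Y)` have exactly one relation, both in `K_3` and between their
regulators: their sum vanishes.
-/

namespace Pool.Agent.Results.MP_a09a03_nt.FactorsOfDifferences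

open Polynomial

open Pool.Agent.TH826.MK (KQ symb Torus Unramified circ)

open Pool.Agent.Y775.CC (CRing cc cx cz uu Branches SmoothPts isDomain_CRing smoothPts)

open Pool.Agent.Q212.DC

/-- `γ` is the loop `z = r e^{2πiθ}`, `x = φ(z + 1/z)` of complex points over `s` of the curve
`C : z² - F(x) z + 1 = 0`. -/
structure IsLoop {K : Type*} [Field K] (s : K →+* ℂ) {F : K[X]} (φ : ℂ → ℂ) (r : ℝ)
    (γ : Torus (CRing F) 1) : Prop where
  eq_const : ∀ θ (a : K), γ.e θ (cc F a) = s a
  eq_x : ∀ θ, γ.e θ (cx F) = φ (uu r (θ 0))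
  eq_z : ∀ θ, γ.e θ (cz F) = circ r (θ 0)

/-- `Γ` is the product of the loops `γ` and `γ'` in the complex points of `C_F × C_G`. -/
structure IsProd {K : Type*} [Field K] {F G : K[X]} (γ : Torus (CRing F) 1)
    (γ' : Torus (CRing G) 1) (Γ : Torus (ORing F G) 2) : Prop where
  fst : ∀ θ r, Γ.e θ (toO F G (fst F G r)) = γ.e (fun _ => θ 0) r
  snd : ∀ θ r, Γ.e θ (toO F G (snd F G r)) = γ'.e (fun _ => θ 1) r

/-- `Γ_{ij}` are the products `γ_i × γ'_j` of the loops `γ_i : |z| = r, x = φ_i(z + 1/z)` of `C_F`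
and `γ'_j : |w| = 1, y = ψ_j(w + 1/w)` of `C_G`, where the `φ_i` and the `ψ_j` are the `n` and `m`
analytic inverses of `F` and `G` on a convex open set `V` that contains `[-2, 2]` and the closed
region `{z + 1/z : 1 ≤ |z| ≤ r}`, `r > 1`. -/
def LoopTori {K : Type*} [Field K] (s : K →+* ℂ) (F G : K[X]) {n m : ℕ}
    (Γ : Fin n → Fin m → Torus (ORing F G) 2) : Prop :=
  ∃ (V : Set ℂ) (φ : Fin n → ℂ → ℂ) (ψ : Fin m → ℂ → ℂ) (r : ℝ)
    (γ : Fin n → Torus (CRing F) 1) (γ' : Fin m → Torus (CRing G) 1),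
    Branches (F.map s) V φ ∧ Branches (G.map s) V ψ ∧ 1 < r ∧
    (∀ z : ℂ, 1 ≤ ‖z‖ → ‖z‖ ≤ r → z + z⁻¹ ∈ V) ∧
    (∀ i, IsLoop s (φ i) r (γ i)) ∧ (∀ j, IsLoop s (ψ j) 1 (γ' j)) ∧
    ∀ i j, IsProd (γ i) (γ' j) (Γ i j)

/-- The symbols `{R_k(x, y), z, w}`, `∏_k R_k = F(X) - G(Y)`, are unramified at all discrete
valuations of the function field `L` of `C_F × C_G`, and their sum in `K_3(L) ⊗ ℚ` vanishes. -/
def UnramifiedSumZero {K : Type*} [Field K] {F G : K[X]} {ι : Type*} [Fintype ι]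
    {R : ι → K[X][X]} (h : ∏ k, R k = dif F G) (L : Type*) [Field L] [Algebra (SRing F G) L] :
    Prop :=
  ∃ f : ORing F G →+* L, (∀ r : SRing F G, f (toO F G r) = algebraMap (SRing F G) L r) ∧
    (∀ k, KQ.map 3 f (symb (ent (dvd_of_prod h k))) ∈ Unramified L 3) ∧
    ∑ k, KQ.map 3 f (symb (ent (dvd_of_prod h k))) = 0

/-- Let `K` be a number field, `s : K → ℂ` an embedding, `F` and `G` monic polynomials of degrees
`n, m ≥ 1` whose coefficients are algebraic integers of `K`, without critical values in `[-2, 2]`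
over `s`; let `K` contain the roots of unity of order `gcd(n, m)`, and let `F(X) - G(Y) = ∏_k R_k`
be any factorisation over `K` into polynomials that are monic of positive degree in `X`. Let
`C_F : z² - F(x) z + 1 = 0` and `C_G : w² - G(y) w + 1 = 0`, let `SRing F G` be the coordinate ring
of `C_F × C_G` and `ORing F G` that of its open part `F(x) ≠ G(y)`. Then `SRing F G` is a domain,
the curves are smooth at their complex points over `s`, and the symbols `{R_k(x, y), z, w}` are
unramified at all discrete valuations of the function field of `C_F × C_G`, with sum zero. There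
are tori `Γ_{ij} = γ_i × γ'_j`, `i < n`, `j < m`, as in `LoopTori`, such that for every `i` and
all real `c_k`: the combination `∑_k c_k ⟨{R_k(x, y), z, w}, Γ_{ij}⟩` of the regulators vanishes
for all `j` if and only if all the `c_k` are equal. -/
theorem result.{u, v, w} (K : Type u) [Field K] [NumberField K] (s : K →+* ℂ) (n m : ℕ)
    (hn : 0 < n) (hm : 0 < m) (hspl : (X ^ n.gcd m - 1 : K[X]).Splits) (F G : K[X])
    (hF : F.Monic) (hG : G.Monic) (hFd : F.natDegree = n) (hGd : G.natDegree = m)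
    (hFi : ∀ i, IsIntegral ℤ (F.coeff i)) (hGi : ∀ i, IsIntegral ℤ (G.coeff i))
    (hcF : ∀ x : ℂ, (derivative F).eval₂ s x = 0 → ∀ t : ℝ, |t| ≤ 2 → F.eval₂ s x ≠ t)
    (hcG : ∀ x : ℂ, (derivative G).eval₂ s x = 0 → ∀ t : ℝ, |t| ≤ 2 → G.eval₂ s x ≠ t)
    (ι : Type w) [Fintype ι] (R : ι → K[X][X]) (hR : ∀ k, (R k).Monic ∧ 0 < (R k).natDegree)
    (hprod : ∏ k, R k = F.map C - C G) :
    IsDomain (SRing F G) ∧ SmoothPts s F ∧ SmoothPts s G ∧
    (∀ (L : Type v) [Field L] [Algebra (SRing F G) L] [IsFractionRing (SRing F G) L],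
      UnramifiedSumZero hprod L) ∧
    ∃ Γ : Fin n → Fin m → Torus (ORing F G) 2, LoopTori s F G Γ ∧
      ∀ (i : Fin n) (c : ι → ℝ),
        (∀ j, ∑ k, c k * (Γ i j).reg (symb (ent (dvd_of_prod hprod k))) = 0) ↔
          ∀ k k', c k = c k' := by
  obtain ⟨q, p, hpq, hq, hp⟩ := Nat.exists_coprime n m
  have hd : 0 < n.gcd m := Nat.gcd_pos_of_pos_left _ hn
  have hq0 : 0 < q := by
    rcases Nat.eq_zero_or_pos q with h | h
    · rw [h, zero_mul] at hq
      omega
    · exact h
  have hp0 : 0 < p := by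
    rcases Nat.eq_zero_or_pos p with h | h
    · rw [h, zero_mul] at hp
      omega
    · exact h
  have hFp : 0 < F.natDegree := by omega
  have hGp : 0 < G.natDegree := by omega
  refine ⟨isDomain_SRing hFp hGp, smoothPts hcF, smoothPts hcG, ?_, ?_⟩
  · intro L _ _ _
    have hinj : Function.Injective (algebraMap (SRing F G) L) := IsFractionRing.injective _ _
    have hunit : IsUnit (algebraMap (SRing F G) L (sdel F G)) := by
      refine IsUnit.mk0 _ ?_
      rw [Ne, map_eq_zero_iff _ hinj]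
      exact sdel_ne_zero hFp hGp
    exact ⟨IsLocalization.Away.lift (sdel F G) hunit, fun r =>
      IsLocalization.Away.lift_eq (sdel F G) hunit r, fun k =>
      symb_ent_mem_unramified hF hG hFi hGi (hFd.trans hq) (hGd.trans hp) hd hp0 hq0 hpq.symm hspl
        (hR k).1 (dvd_of_prod hprod k) _, sum_symb_ent hprod _⟩
  · obtain ⟨V, φ, ψ, r, γ, γ', Γ, hB, hB', hr, hV, h1, h2, h3, h4⟩ :=
      main hF hG hFd hGd hq hp hd hp0 hq0 hpq.symm hcF hcG (fun k => (hR k).1)
        (fun k => (hR k).2) hprod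
    exact ⟨Γ, ⟨V, φ, ψ, r, γ, γ', hB, hB', hr, hV,
      fun i => ⟨fun θ => (h1 i θ).1, fun θ => (h1 i θ).2.1, fun θ => (h1 i θ).2.2⟩,
      fun i => ⟨fun θ => (h2 i θ).1, fun θ => (h2 i θ).2.1, fun θ => (h2 i θ).2.2⟩,
      fun i j => ⟨fun θ r => (h3 i j θ).1 r, fun θ r => (h3 i j θ).2 r⟩⟩, h4⟩

end Pool.Agent.Results.MP_a09a03_nt.FactorsOfDifferences
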