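import Pool.Agent.Q212.LF.TDom
import Pool.Agent.Q212.LF.TTor
import Pool.Agent.Q212.LF.TUnr
set_option autoImplicit false

/-!
Unramified classes with independent regulators in the Milnor K-theory of fibrations whose fibres are
the members of the pencil `W(z_0, ..., z_q) = t` of hypersurfaces in the torus, for arbitrary
products `W` of Laurent polynomials with affinely independent exponents and roots of unity as
coefficients, and of cyclotomic polynomials in a monomial, with `0` in the interior of the Newton
polytope: on the varieties `W(z) = λ g(x) ∏_j ∏_i (x_j - φ_{j,i}(x_{j+1}, ..., x_n))` of dimension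
`n + 1 + q` over a number field, where the `φ_{j,0}, ..., φ_{j,r_j}` are arbitrary distinct
polynomials in the variables `x_l`, `l > j`, and `g` is an arbitrary polynomial which is not zero,
there are `∏_j r_j` unramified classes with linearly independent regulators, for all large `λ`.
-/

namespace Pool.Agent.Results.MP_a09a03_nt.LaurentTowers

open Pool.Agent.Q212.LF

open Pool.Agent.Y797.TW (Tower)

/-- Let `σ` be a complex embedding of the number field `K`. Let `W` be a Laurent polynomial in
`z_0, ..., z_q` over `K`, which is a product of Laurent polynomials `∑_i ε_i z^(e_i)` with affinely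
independent exponents `e_i` and roots of unity `ε_i`, and of polynomials `f(z^u)`, where `u ≠ 0` and
`f` is a monic divisor of some `X^N - 1`, such that `0` lies in the interior of the Newton polytope
of `W`. For `j = 0, ..., n` let `φ_{j,0}, ..., φ_{j,r_j}` be different polynomials in the variables
`x_l`, `j < l ≤ n`, with integral coefficients in `K`, and let `g ≠ 0` be a polynomial in
`x_0, ..., x_n` with integral coefficients in `K`. There is a constant `C` such that for all
algebraic integers `λ` of `K` with `|σ λ| ≥ C`: the coordinate ring of the hypersurface
`W(z) = Φ(x)`, `Φ = λ g ∏_j ∏_i (x_j - φ_{j,i})`, of dimension `n + 1 + q` in the product of the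
torus of the `z` and the affine space of the `x`, is a domain, if `n ≥ 1` and the total degree of
`g` is less than the total degree of `∏_j ∏_i (x_j - φ_{j,i})`; for all `k` with `0 ≤ k_j < r_j` the
symbol `{u_0, ..., u_n, z_0, ..., z_q}`, `u_j = (x_j - φ_{j,k_j+1}) / (x_j - φ_{j,0})`, on the open
part `Φ ≠ 0` is unramified at all discrete valuations of all fields in which the ring of the open
part maps; and there are `∏_j r_j` tori of dimension `n + 1 + q` in the complex points (over `σ`) of
the open part, at all points of which some partial derivative `∂Φ/∂x_j` is not `0` (so that the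
hypersurface is smooth there), such that the determinant of the regulators of the `∏_j r_j` symbols
on the tori does not vanish. -/
theorem result.{u, v} (n q : ℕ) (K : Type u) [Field K] [NumberField K] (σ : K →+* ℂ)
    (W : Lau K (q + 1)) (hW : Tempered W) (A : Tower K n) (hG : A.Graphs) (hI : A.Integral) :
    ∃ C : ℝ, ∀ lam : K, IsIntegral ℤ lam → C ≤ ‖σ lam‖ →
      (1 ≤ n → A.g.totalDegree < (∏ j, ∏ i, A.fac j i).totalDegree →
        IsDomain (HRing W (tPhi A lam))) ∧
      (∀ k : ∀ j, Fin (A.r j), UnramAt.{u, v} (tent W A lam k)) ∧
      TIndepReg σ W A lam := by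
  obtain ⟨C, hC1, hC⟩ := exists_tindep σ hW hG
  refine ⟨C, fun lam hlam hl => ⟨fun hn hdeg => ?_, fun k => unramAt_tent hW hG hI hlam k,
    hC lam hl⟩⟩
  have hl0 : lam ≠ 0 := by
    intro h0
    rw [h0, map_zero, norm_zero] at hl
    linarith
  exact isDomain_tower (hW.ne_zero (Nat.succ_ne_zero q)) hl0 hG hn hdeg

end Pool.Agent.Results.MP_a09a03_nt.LaurentTowers
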